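import Pool.Agent.H21.Til4

namespace Pool.Agent.Results.MP_d6d24d_co.NoDual

open Pool.Agent.H21.Til

theorem result : ∃ 𝒯 : Set (Set (Fin 3 → ℝ)), Tiling 𝒯 ∧
    ∀ 𝒯' : Set (Set (Fin 3 → ℝ)), Tiling 𝒯' → ¬ Dual 𝒯 𝒯' :=
  ⟨T0, tiling_T0, fun _ H => no_dual_T0 H⟩

end Pool.Agent.Results.MP_d6d24d_co.NoDual
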